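import Mathlib
import Pool.Agent.H685R2.DIM.Ramsey

set_option autoImplicit false

/-!
# Combinatorial lemmas: Ramsey's theorem for colourings of finite sets, cutting a set (helper914)
-/

namespace Pool.Agent.N914.IX

open Finset

/-- Ramsey's theorem for colourings of the `u`-element subsets -/
theorem ramseyC (κ : Type) [Fintype κ] [Nonempty κ] (u m : ℕ) : ∃ N : ℕ, ∀ V : Finset ℕ,
    N ≤ V.card → ∀ col : Finset ℕ → κ,
    ∃ W ⊆ V, W.card = m ∧ ∃ c : κ, ∀ F ⊆ W, F.card = u → col F = c := by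
  classical
  obtain ⟨N, hN⟩ := Pool.Agent.H685R2.DIM.ramsey_gen κ u m
  refine ⟨N, fun V hV col => ?_⟩
  obtain ⟨T, hT, hTm, c, hc⟩ := hN V (fun l => col l.toFinset) hV
  refine ⟨T, hT, hTm, c, fun F hF hFu => ?_⟩
  have h1 := hc (F.sort (· ≤ ·)) (by rw [Finset.length_sort, hFu])
    (Finset.sortedLT_sort F).pairwise (fun x hx => hF ((Finset.mem_sort _).1 hx))
  rwa [Finset.sort_toFinset] at h1

/-- the `a` smallest elements of a finite set -/
theorem cut (S : Finset ℕ) : ∀ a : ℕ, a ≤ S.card → ∃ A ⊆ S, A.card = a ∧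
    ∀ u ∈ A, ∀ v ∈ S, v ∉ A → u < v := by
  intro a
  induction a with
  | zero => exact fun _ => ⟨∅, empty_subset _, rfl, fun u hu => absurd hu (notMem_empty u)⟩
  | succ a ih =>
    intro ha
    obtain ⟨A, hA, hAc, h⟩ := ih (by omega)
    have hne : (S \ A).Nonempty := by
      rw [← card_pos, card_sdiff_of_subset hA]
      omega
    have hw := min'_mem (S \ A) hne
    rw [mem_sdiff] at hw
    refine ⟨insert ((S \ A).min' hne) A, insert_subset hw.1 hA, ?_, ?_⟩
    · rw [card_insert_of_notMem hw.2, hAc]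
    · intro u hu v hv hvA
      rw [mem_insert, not_or] at hvA
      rcases mem_insert.1 hu with rfl | hu
      · have h1 := min'_le (S \ A) v (mem_sdiff.2 ⟨hv, hvA.2⟩)
        omega
      · exact h u hu v hv hvA.2

/-- a large subset in one residue class -/
theorem sparse (M K : ℕ) (V : Finset ℕ) (hV : (M + 1) * K ≤ V.card) : ∃ V₁ ⊆ V, K ≤ V₁.card ∧
    ∀ u ∈ V₁, ∀ v ∈ V₁, u < v → u + M < v := by
  classical
  obtain ⟨c, -, hc⟩ := Finset.exists_le_card_fiber_of_mul_le_card_of_maps_to (s := V)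
    (t := range (M + 1)) (n := K) (f := fun v => v % (M + 1))
    (fun v _ => mem_range.2 (Nat.mod_lt _ (Nat.succ_pos M)))
    ⟨0, mem_range.2 (Nat.succ_pos M)⟩ (by rw [card_range]; exact hV)
  refine ⟨_, filter_subset _ _, hc, fun u hu v hv huv => ?_⟩
  have h1 := (mem_filter.1 hu).2
  have h2 := (mem_filter.1 hv).2
  have h3 : u ≡ v [MOD (M + 1)] := h1.trans h2.symm
  have h4 : (M + 1) ∣ v - u := (Nat.modEq_iff_dvd' huv.le).1 h3
  have h5 := Nat.le_of_dvd (by omega) h4
  omega

/-- the positive proportion of the good `L`-subsets of a dense set -/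
theorem dense (L K : ℕ) (hLK : L ≤ K) (δ : ℝ) (hδ : 0 < δ) : ∃ c : ℝ, 0 < c ∧ ∃ N₀ : ℕ,
    ∀ N : ℕ, N₀ ≤ N → ∀ F : Finset ℕ, F ⊆ range N → δ * N ≤ F.card →
    ∀ G : Finset ℕ → Prop, (∀ S ⊆ F, S.card = K → ∃ W ⊆ S, W.card = L ∧ G W) →
    ∀ [DecidablePred G], c * (N : ℝ) ^ L ≤ (((powersetCard L F).filter G).card : ℝ) := by
  classical
  refine ⟨(δ / (2 * (K + 1))) ^ K, by positivity, ⌈2 * (K + 1) / δ⌉₊ + 1, ?_⟩
  intro N hN F hF hFc G hG _
  have hN1 : 1 ≤ N := by omega
  have hN0 : (0 : ℝ) < N := by exact_mod_cast hN1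
  have h0 : 2 * (K + 1) / δ ≤ N := by
    refine (Nat.le_ceil _).trans ?_
    exact_mod_cast (by omega : ⌈2 * ((K : ℝ) + 1) / δ⌉₊ ≤ N)
  have h0' : 2 * ((K : ℝ) + 1) ≤ δ * N := by
    rw [div_le_iff₀ hδ] at h0
    linarith
  -- the number of the `K`-subsets
  have hKF : K ≤ F.card := by
    have : (K : ℝ) ≤ F.card := by linarith
    exact_mod_cast this
  have h1 : (δ / (2 * (K + 1)) * N) ^ K ≤ ((F.card.choose K : ℕ) : ℝ) := by
    have h2 : ((F.card + 1 - K : ℕ) : ℝ) ^ K ≤ (F.card.choose K : ℝ) * (K.factorial : ℝ) := by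
      have := Nat.pow_sub_le_descFactorial F.card K
      rw [Nat.descFactorial_eq_factorial_mul_choose] at this
      calc ((F.card + 1 - K : ℕ) : ℝ) ^ K ≤ ((K.factorial * F.card.choose K : ℕ) : ℝ) := by
            exact_mod_cast this
        _ = _ := by push_cast; ring
    have h3 : δ * N / 2 ≤ ((F.card + 1 - K : ℕ) : ℝ) := by
      rw [Nat.cast_sub (by omega)]
      push_cast
      linarith
    have h4 : (K.factorial : ℝ) ≤ ((K : ℝ) + 1) ^ K := by
      have h5 : K.factorial ≤ (K + 1) ^ K := (Nat.factorial_le_pow K).trans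
        (Nat.pow_le_pow_left (by omega) K)
      exact_mod_cast h5
    have h6 : (0 : ℝ) < (K.factorial : ℝ) := by exact_mod_cast K.factorial_pos
    have h7 : δ / (2 * (K + 1)) * N = (δ * N / 2) / (K + 1) := by
      field_simp
    rw [h7, div_pow, div_le_iff₀ (by positivity)]
    calc (δ * N / 2) ^ K ≤ ((F.card + 1 - K : ℕ) : ℝ) ^ K :=
          pow_le_pow_left₀ (by positivity) h3 K
      _ ≤ (F.card.choose K : ℝ) * (K.factorial : ℝ) := h2
      _ ≤ (F.card.choose K : ℝ) * ((K : ℝ) + 1) ^ K :=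
          mul_le_mul_of_nonneg_left h4 (by positivity)
  choose! Φ hΦ using hG
  set 𝒲 := (powersetCard L F).filter G with h𝒲
  have h4 : (powersetCard K F).card ≤ N ^ (K - L) * 𝒲.card := by
    refine card_le_mul_card_image_of_maps_to (f := Φ) ?_ _ ?_
    · intro S hS
      rw [mem_powersetCard] at hS
      obtain ⟨e1, e2, e3⟩ := hΦ S hS.1 hS.2
      rw [h𝒲, mem_filter, mem_powersetCard]
      exact ⟨⟨e1.trans hS.1, e2⟩, e3⟩
    · intro W _
      have h5 : ((powersetCard K F).filter (fun S => Φ S = W)).card ≤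
          (powersetCard (K - L) (range N)).card := by
        refine card_le_card_of_injOn (fun S => S \ W) ?_ ?_
        · intro S hS
          rw [mem_coe, mem_filter, mem_powersetCard] at hS
          obtain ⟨hS1, hS2⟩ := hS
          obtain ⟨e1, e2, -⟩ := hΦ S hS1.1 hS1.2
          rw [hS2] at e1 e2
          rw [mem_coe, mem_powersetCard]
          refine ⟨sdiff_subset.trans (hS1.1.trans hF), ?_⟩
          rw [card_sdiff_of_subset e1, hS1.2, e2]
        · intro S hS S' hS' he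
          rw [mem_coe, mem_filter, mem_powersetCard] at hS hS'
          have e1 := (hΦ S hS.1.1 hS.1.2).1
          have e2 := (hΦ S' hS'.1.1 hS'.1.2).1
          rw [hS.2] at e1
          rw [hS'.2] at e2
          simp only at he
          rw [← sdiff_union_of_subset e1, ← sdiff_union_of_subset e2, he]
      rw [card_powersetCard, card_range] at h5
      exact h5.trans (Nat.choose_le_pow N _)
  rw [card_powersetCard] at h4
  have h5 : ((F.card.choose K : ℕ) : ℝ) ≤ (N : ℝ) ^ (K - L) * 𝒲.card := by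
    exact_mod_cast h4
  have h6 : (N : ℝ) ^ K = (N : ℝ) ^ (K - L) * (N : ℝ) ^ L := by
    rw [← pow_add, Nat.sub_add_cancel hLK]
  have h7 : (N : ℝ) ^ (K - L) * ((δ / (2 * (K + 1))) ^ K * (N : ℝ) ^ L) ≤
      (N : ℝ) ^ (K - L) * 𝒲.card := by
    refine le_trans (le_of_eq ?_) (h1.trans h5)
    rw [mul_pow, h6]
    ring
  exact le_of_mul_le_mul_left h7 (by positivity)

end Pool.Agent.N914.IX
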