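import Pool.Agent.N914.IX.Main

set_option autoImplicit false
set_option maxHeartbeats 4000000

/-!
# Gaps between consecutive primes at indices in every residue class (helper914)
-/

namespace Pool.Agent.N914.IX

open Finset Filter
open Pool.Agent.N914.CP (patN Str Good)

/-- the `i`-th prime: `pr 1 = 2`, `pr 2 = 3`, … -/
noncomputable def pr (i : ℕ) : ℕ := Nat.nth Nat.Prime (i - 1)

/-- the number of the indices `i ≡ r (mod m)` with `pr i ≤ x` and `pr (i + 1) = pr i + h` -/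
noncomputable def gapN (m r h : ℕ) (x : ℝ) : ℕ :=
  {i : ℕ | 1 ≤ i ∧ i ≡ r [MOD m] ∧ (pr i : ℝ) ≤ x ∧ pr (i + 1) = pr i + h}.ncard

theorem le_pr (i : ℕ) : i ≤ pr i := by
  have := Nat.add_two_le_nth_prime (i - 1)
  unfold pr
  omega

theorem gapN_finite (m r h : ℕ) (x : ℝ) :
    {i : ℕ | 1 ≤ i ∧ i ≡ r [MOD m] ∧ (pr i : ℝ) ≤ x ∧ pr (i + 1) = pr i + h}.Finite := by
  refine finite_le x _ fun i hi => ?_
  have : (i : ℝ) ≤ pr i := by exact_mod_cast le_pr i
  exact this.trans hi.2.2.1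

theorem pr_counting (p : ℕ) (hp : p.Prime) : pr (Nat.primeCounting p) = p := by
  unfold pr Nat.primeCounting Nat.primeCounting'
  rw [Nat.count_succ, if_pos hp, Nat.add_sub_cancel]
  exact Nat.nth_count hp

theorem cnt_le_gapN (m r u v : ℕ) (huv : u < v) (x y : ℝ) (hxy : x + u ≤ y) :
    cnt m r 1 0 0 {u, v} x ≤ gapN m r (v - u) y := by
  refine Set.ncard_le_ncard_of_injOn (fun n => Nat.primeCounting (n + u)) ?_ ?_
    (gapN_finite m r (v - u) y)
  · rintro n ⟨hn, -, hex, t, ht, hmin, hr⟩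
    have htu : t = u := by
      rw [mem_insert, mem_singleton] at ht
      rcases ht with rfl | rfl
      · rfl
      · have := hmin u (mem_insert_self _ _)
        omega
    subst htu
    have hmemv : v ∈ ({t, v} : Finset ℕ) := mem_insert_of_mem (mem_singleton_self _)
    have hmemt : t ∈ ({t, v} : Finset ℕ) := mem_insert_self _ _
    have hpu : (n + t).Prime := (hex (n + t) ⟨t, hmemt, by omega⟩ ⟨t, hmemt, by omega⟩).2
      ⟨t, hmemt, rfl⟩
    have hpv : (n + v).Prime := (hex (n + v) ⟨v, hmemv, by omega⟩ ⟨v, hmemv, by omega⟩).2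
      ⟨v, hmemv, rfl⟩
    have h1 := pr_counting (n + t) hpu
    have h2 := pr_counting (n + v) hpv
    have h3 : Nat.primeCounting (n + v) = Nat.primeCounting (n + t) + 1 := by
      unfold Nat.primeCounting Nat.primeCounting'
      have e1 : n + v + 1 = (n + t + 1) + (v - t) := by omega
      rw [e1, Nat.count_add]
      congr 1
      rw [Nat.count_eq_card_filter_range, card_eq_one]
      refine ⟨v - t - 1, ?_⟩
      ext j
      rw [mem_filter, mem_range, mem_singleton]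
      constructor
      · rintro ⟨hj, hp⟩
        obtain ⟨w, hw, he⟩ := (hex (n + t + 1 + j) ⟨t, hmemt, by omega⟩
          ⟨v, hmemv, by omega⟩).1 hp
        rw [mem_insert, mem_singleton] at hw
        rcases hw with rfl | rfl <;> omega
      · intro hj
        have e2 : n + t + 1 + j = n + v := by omega
        rw [e2]
        exact ⟨by omega, hpv⟩
    rw [h3] at h2
    refine ⟨?_, hr, ?_, ?_⟩
    · by_contra hcon
      have h4 : Nat.primeCounting (n + t) = 0 := by omega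
      unfold Nat.primeCounting Nat.primeCounting' at h4
      rw [Nat.count_succ, if_pos hpu] at h4
      omega
    · rw [h1]
      push_cast
      linarith
    · rw [h1, h2]
      omega
  · rintro n ⟨hn, -, hex, -⟩ n' ⟨hn', -, hex', -⟩ he
    have hmemt : u ∈ ({u, v} : Finset ℕ) := mem_insert_self _ _
    have hpu : (n + u).Prime := (hex (n + u) ⟨u, hmemt, by omega⟩ ⟨u, hmemt, by omega⟩).2
      ⟨u, hmemt, rfl⟩
    have hpu' : (n' + u).Prime := (hex' (n' + u) ⟨u, hmemt, by omega⟩ ⟨u, hmemt, by omega⟩).2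
      ⟨u, hmemt, rfl⟩
    have h1 := pr_counting (n + u) hpu
    have h2 := pr_counting (n' + u) hpu'
    simp only at he
    rw [he, h2] at h1
    omega

/-- the loss in the count when `x` is divided by two -/
theorem half_loss (C : ℕ) : ∀ᶠ x : ℝ in atTop,
    x / Real.log x ^ (C + 1) ≤ (x / 2) / Real.log (x / 2) ^ C := by
  have hl : ∀ᶠ x : ℝ in atTop, 2 ≤ Real.log x := Real.tendsto_log_atTop.eventually_ge_atTop _
  filter_upwards [hl, eventually_ge_atTop (4 : ℝ)] with x h1 h2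
  have hx : 0 < x := by linarith
  have h4 : x / 2 ≤ x := by linarith
  have h5 : 0 < Real.log (x / 2) := Real.log_pos (by linarith)
  have h6 : Real.log (x / 2) ≤ Real.log x := Real.log_le_log (by linarith) h4
  have h7 : 0 < Real.log x := by linarith
  have h8 : Real.log (x / 2) ^ C ≤ Real.log x ^ C := pow_le_pow_left₀ h5.le h6 C
  rw [div_le_div_iff₀ (by positivity) (by positivity)]
  calc x * Real.log (x / 2) ^ C ≤ x * Real.log x ^ C := mul_le_mul_of_nonneg_left h8 hx.le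
    _ = x / 2 * (2 * Real.log x ^ C) := by ring
    _ ≤ x / 2 * (Real.log x * Real.log x ^ C) :=
        mul_le_mul_of_nonneg_left (mul_le_mul_of_nonneg_right h1 (by positivity)) (by linarith)
    _ = x / 2 * (Real.log x ^ (C + 1)) := by rw [pow_succ]; ring

open Classical in
theorem gaps (m B : ℕ) (hm : 1 ≤ m) (hB : Str (1 + m - 1) B) : ∃ c : ℝ, 0 < c ∧ ∃ H₀ : ℕ,
    ∀ H : ℕ, H₀ ≤ H → ∃ x₀ : ℝ, ∀ x : ℝ, x₀ ≤ x →
    c * H ≤ (((Icc 1 H).filter (fun h => ∀ r : ℕ,
      x / Real.log x ^ (B + 2) ≤ (gapN m r h x : ℝ))).card : ℝ) := by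
  obtain ⟨c, hc, N₀, h⟩ := denseI 1 m B hm hB 2 1 0 1 one_pos
  refine ⟨c, hc, max 1 N₀, fun H hH => ?_⟩
  obtain ⟨x₀, hx₀⟩ := h H ((le_max_right _ _).trans hH) 1
  obtain ⟨x₁, hx₁⟩ := eventually_atTop.1 (half_loss (B + 1))
  refine ⟨max (max (2 * x₀) x₁) (2 * H), fun x hx => ?_⟩
  have hx1 : 2 * x₀ ≤ x := ((le_max_left _ _).trans (le_max_left _ _)).trans hx
  have hx2 : x₁ ≤ x := ((le_max_right _ _).trans (le_max_left _ _)).trans hx
  have hx3 : 2 * (H : ℝ) ≤ x := (le_max_right _ _).trans hx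
  have hH1 : 1 ≤ H := (le_max_left _ _).trans hH
  have hH0 : (0 : ℝ) < H := by exact_mod_cast hH1
  have h1 := hx₀ (fun _ => 1) (fun _ => 0) (fun _ => x / 2) (range H)
    (fun _ => ⟨le_refl 1, le_refl 1, by linarith⟩) (Finset.Subset.refl _)
    (by rw [card_range, one_mul]) (fun _ v _ => Nat.coprime_one_right _)
  set 𝒲 := (powersetCard 2 (range H)).filter (fun W =>
    GoodI 1 (B + 1) m 1 0 (fun _ => 1) (fun _ => 0) (fun _ => x / 2) W) with h𝒲
  set S := (Icc 1 H).filter (fun h => ∀ r : ℕ,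
      x / Real.log x ^ (B + 2) ≤ (gapN m r h x : ℝ)) with hS
  have h2 : 𝒲.card ≤ (S ×ˢ range H).card := by
    have h3 : ∀ W ∈ 𝒲, ∃ p : ℕ × ℕ, p ∈ S ×ˢ range H ∧ W = {p.2, p.2 + p.1} := by
      intro W hW
      rw [h𝒲, mem_filter, mem_powersetCard, card_eq_two] at hW
      obtain ⟨⟨hWr, u, v, huv, rfl⟩, hgood⟩ := hW
      wlog hlt : u < v generalizing u v with hwlog
      · rw [pair_comm u v] at hWr hgood ⊢
        exact hwlog v u huv.symm hgood hWr (by omega)
      have hu := hWr (mem_insert_self u {v})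
      have hv := hWr (mem_insert_of_mem (mem_singleton_self v))
      rw [mem_range] at hu hv
      refine ⟨(v - u, u), ?_, by rw [show u + (v - u) = v by omega]⟩
      rw [mem_product, mem_range, hS, mem_filter, mem_Icc]
      refine ⟨⟨⟨by omega, by omega⟩, fun r => ?_⟩, hu⟩
      have h4 := hgood 0 {u, v} (Finset.Subset.refl _) (by rw [card_pair huv]; norm_num)
        (by rw [card_pair huv]) r
      have h5 := cnt_le_gapN m r u v hlt (x / 2) x (by
        have : (u : ℝ) ≤ H := by exact_mod_cast hu.le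
        linarith)
      exact (hx₁ x hx2).trans (h4.trans (by exact_mod_cast h5))
    choose! Φ hΦ1 hΦ2 using h3
    refine card_le_card_of_injOn Φ (fun W hW => by exact_mod_cast hΦ1 W hW) ?_
    intro W hW W' hW' he
    rw [hΦ2 W hW, hΦ2 W' hW', he]
  rw [card_product, card_range] at h2
  have h3 : (𝒲.card : ℝ) ≤ (S.card : ℝ) * H := by exact_mod_cast h2
  have h4 : c * (H : ℝ) ^ 2 ≤ (S.card : ℝ) * H := h1.trans h3
  have h5 : (c * H) * H ≤ (S.card : ℝ) * H := by
    calc (c * H) * H = c * (H : ℝ) ^ 2 := by ring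
      _ ≤ _ := h4
  exact le_of_mul_le_mul_right h5 hH0

/-- `x / (log x) ^ C → ∞` -/
theorem tendsto_div_log (C : ℕ) : Tendsto (fun x : ℝ => x / Real.log x ^ C) atTop atTop := by
  have h1 : (fun x : ℝ => Real.log x ^ C) =o[atTop] (fun x : ℝ => x) :=
    Real.isLittleO_pow_log_id_atTop
  have h2 : Tendsto (fun x : ℝ => Real.log x ^ C / x) atTop (nhds 0) := h1.tendsto_div_nhds_zero
  have h3 : ∀ᶠ x : ℝ in atTop, Real.log x ^ C / x ∈ Set.Ioi (0 : ℝ) := by
    filter_upwards [eventually_gt_atTop (1 : ℝ)] with x hx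
    have h5 : 0 < Real.log x := Real.log_pos hx
    have h6 : 0 < x := by linarith
    exact div_pos (pow_pos h5 C) h6
  have h4 := (tendsto_nhdsWithin_iff.2 ⟨h2, h3⟩).inv_tendsto_nhdsGT_zero
  refine h4.congr fun x => ?_
  show (Real.log x ^ C / x)⁻¹ = x / Real.log x ^ C
  rw [inv_div]

open Classical in
theorem gapsInf (m B : ℕ) (hm : 1 ≤ m) (hB : Str (1 + m - 1) B) : ∃ c : ℝ, 0 < c ∧ ∃ H₀ : ℕ,
    ∀ H : ℕ, H₀ ≤ H → c * H ≤ (((Icc 1 H).filter (fun h => ∀ r : ℕ,
      {i : ℕ | i ≡ r [MOD m] ∧ pr (i + 1) = pr i + h}.Infinite)).card : ℝ) := by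
  obtain ⟨c, hc, H₀, h⟩ := gaps m B hm hB
  refine ⟨c, hc, H₀, fun H hH => ?_⟩
  obtain ⟨x₀, hx₀⟩ := h H hH
  have h1 : ∀ g : ℕ, ∃ b : ℝ, ∀ r : ℕ, r < m →
      {i : ℕ | i ≡ r [MOD m] ∧ pr (i + 1) = pr i + g}.Finite → ∀ x : ℝ,
      (gapN m r g x : ℝ) ≤ b := by
    intro g
    refine ⟨∑ r ∈ range m, (({i : ℕ | i ≡ r [MOD m] ∧ pr (i + 1) = pr i + g}.ncard : ℕ) : ℝ),
      fun r hr hf x => ?_⟩
    have h2 : gapN m r g x ≤ {i : ℕ | i ≡ r [MOD m] ∧ pr (i + 1) = pr i + g}.ncard :=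
      Set.ncard_le_ncard (fun i hi => ⟨hi.2.1, hi.2.2.2⟩) hf
    have h3 : (gapN m r g x : ℝ) ≤
        (({i : ℕ | i ≡ r [MOD m] ∧ pr (i + 1) = pr i + g}.ncard : ℕ) : ℝ) := by exact_mod_cast h2
    exact h3.trans (single_le_sum (f := fun r =>
      (({i : ℕ | i ≡ r [MOD m] ∧ pr (i + 1) = pr i + g}.ncard : ℕ) : ℝ))
      (fun _ _ => Nat.cast_nonneg _) (mem_range.2 hr))
  choose b hb using h1
  have h2 : ∀ᶠ x : ℝ in atTop, ∀ g ∈ Icc 1 H, b g < x / Real.log x ^ (B + 2) := by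
    rw [eventually_all_finset]
    exact fun g _ => (tendsto_div_log (B + 2)).eventually_gt_atTop (b g)
  obtain ⟨x, hx1, hx2⟩ := (h2.and (eventually_ge_atTop x₀)).exists
  refine (hx₀ x hx2).trans ?_
  rw [Nat.cast_le]
  refine card_le_card fun g hg => ?_
  rw [mem_filter] at hg ⊢
  refine ⟨hg.1, fun r hfin => ?_⟩
  have hfin' : {i : ℕ | i ≡ r % m [MOD m] ∧ pr (i + 1) = pr i + g}.Finite := by
    refine hfin.subset fun i hi => ⟨hi.1.trans (Nat.mod_modEq r m), hi.2⟩
  have h3 := hb g (r % m) (Nat.mod_lt _ hm) hfin' x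
  have h4 := hg.2 (r % m)
  have h5 := hx1 g hg.1
  linarith

end Pool.Agent.N914.IX
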