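import Pool.Agent.N914.IX.Shift

set_option autoImplicit false
set_option maxHeartbeats 4000000

/-!
# Patterns of consecutive primes at indices in every residue class (helper914)
-/

namespace Pool.Agent.N914.IX

open Finset Filter
open Pool.Agent.N914.CP (patN Str Good)

/-- all the subsets of `W` with at most `k + 1` elements are patterns of consecutive primes, at
indices in every residue class modulo `m` -/
def GoodI (k B m R M : ℕ) (q a : Fin R → ℕ) (x : Fin R → ℝ) (W : Finset ℕ) : Prop :=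
  ∀ ρ, ∀ T ⊆ W, 1 ≤ T.card → T.card ≤ k + 1 → ∀ r : ℕ,
    x ρ / Real.log (x ρ) ^ B ≤ (cnt m r (q ρ) (a ρ) M T (x ρ) : ℝ)

theorem index (k m B : ℕ) (hm : 1 ≤ m) (hB : Str (k + m - 1) B) (L R M : ℕ) :
    ∃ K : ℕ, ∀ V : Finset ℕ, K ≤ V.card → ∀ Q : ℕ,
    ∃ x₀ : ℝ, ∀ (q a : Fin R → ℕ) (x : Fin R → ℝ),
    (∀ ρ, 1 ≤ q ρ ∧ q ρ ≤ Q ∧ (∀ v ∈ V, (a ρ + v).Coprime (q ρ)) ∧ x₀ ≤ x ρ) →
    ∃ W ⊆ V, W.card = L ∧ GoodI k (B + 1) m R M q a x W := by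
  classical
  have : Nonempty (Fin m) := ⟨⟨0, hm⟩⟩
  obtain ⟨L₁, hL₁⟩ := ramseyC (Fin R → Fin m) (k + m) ((k + m) + L + (k + m))
  obtain ⟨K₁, hK₁⟩ := hB L₁ R M
  refine ⟨(M + 1) * K₁, fun V hV Q => ?_⟩
  obtain ⟨V₁, hV₁, hV₁c, hsep⟩ := sparse M K₁ V hV
  obtain ⟨x₀, hx₀⟩ := hK₁ V₁ hV₁c Q
  refine ⟨max x₀ (Real.exp m), fun q a x h => ?_⟩
  obtain ⟨W₁, hW₁, hW₁c, hgood⟩ := hx₀ q a x fun ρ => by
    obtain ⟨e1, e2, e3, e4⟩ := h ρ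
    exact ⟨e1, e2, fun v hv => e3 v (hV₁ hv), (le_max_left _ _).trans e4⟩
  -- the colours
  have hcol : ∀ T : Finset ℕ, ∃ c : Fin R → Fin m, ∀ ρ,
      patN (q ρ) (a ρ) M T (x ρ) ≤ m * base m (c ρ) (q ρ) (a ρ) M T (x ρ) := by
    intro T
    choose c hc using fun ρ => exists_color m (q ρ) (a ρ) M hm T (x ρ)
    exact ⟨c, hc⟩
  choose col hcol using hcol
  obtain ⟨W₀, hW₀, hW₀c, c, hc⟩ := hL₁ W₁ hW₁c.ge col
  obtain ⟨A₀, hA₀, hA₀c, hA₀lt⟩ := cut W₀ (k + m) (by omega)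
  have hS : (W₀ \ A₀).card = L + (k + m) := by
    rw [card_sdiff_of_subset hA₀, hW₀c, hA₀c]
    omega
  obtain ⟨W, hW, hWc, hWlt⟩ := cut (W₀ \ A₀) L (by omega)
  have hC₀c : ((W₀ \ A₀) \ W).card = k + m := by
    rw [card_sdiff_of_subset hW, hS, hWc]
    omega
  have hWW₀ : W ⊆ W₀ := hW.trans sdiff_subset
  have hC₀W₀ : (W₀ \ A₀) \ W ⊆ W₀ := sdiff_subset.trans sdiff_subset
  have hW₀V₁ : W₀ ⊆ V₁ := hW₀.trans hW₁
  refine ⟨W, hWW₀.trans (hW₀V₁.trans hV₁), hWc, fun ρ T hT hT1 hTk r => ?_⟩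
  set i : ℕ := (r + (m - 1 - (c ρ : ℕ))) % m with hi
  have him : i < m := Nat.mod_lt _ hm
  have hcm : (c ρ : ℕ) < m := (c ρ).2
  obtain ⟨A, hA, hAc⟩ := exists_subset_card_eq (s := A₀) (n := i) (by omega)
  obtain ⟨C, hC, hCc⟩ := exists_subset_card_eq (s := (W₀ \ A₀) \ W) (n := k + m - T.card - i)
    (by omega)
  have hAT : ∀ u ∈ A, ∀ t ∈ T, u + M < t := by
    intro u hu t ht
    have h1 := hW (hT ht)
    rw [Finset.mem_sdiff] at h1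
    exact hsep u (hW₀V₁ (hA₀ (hA hu))) t (hW₀V₁ h1.1) (hA₀lt u (hA hu) t h1.1 h1.2)
  have hTC : ∀ t ∈ T, ∀ v ∈ C, t + M < v := by
    intro t ht v hv
    have h1 := hC hv
    rw [Finset.mem_sdiff] at h1
    exact hsep t (hW₀V₁ (hWW₀ (hT ht))) v (hW₀V₁ (hC₀W₀ (hC hv))) (hWlt t (hT ht) v h1.1 h1.2)
  have hAC : ∀ u ∈ A, ∀ v ∈ C, u < v := by
    intro u hu v hv
    have h1 := hC hv
    rw [Finset.mem_sdiff, Finset.mem_sdiff] at h1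
    exact hA₀lt u (hA hu) v h1.1.1 h1.1.2
  have hTne : T.Nonempty := card_pos.1 (by omega)
  have hcard : (A ∪ T ∪ C).card = k + m := by
    rw [card_union_of_disjoint, card_union_of_disjoint, hAc, hCc]
    · omega
    · rw [disjoint_left]
      intro u hu hu'
      have := hAT u hu u hu'
      omega
    · rw [disjoint_left]
      intro u hu hu'
      rcases mem_union.1 hu with hu | hu
      · exact lt_irrefl _ (hAC u hu u hu')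
      · have := hTC u hu u hu'
        omega
  have hsub : A ∪ T ∪ C ⊆ W₀ :=
    union_subset (union_subset (hA.trans hA₀) (hT.trans hWW₀)) (hC.trans hC₀W₀)
  have h1 := hgood ρ (A ∪ T ∪ C) (hsub.trans hW₀) (by omega) (by omega)
  have h2 := hcol (A ∪ T ∪ C) ρ
  rw [hc _ hsub hcard] at h2
  have h3 : (c ρ : ℕ) + A.card + 1 ≡ r [MOD m] := by
    rw [hAc]
    have e1 : i ≡ r + (m - 1 - (c ρ : ℕ)) [MOD m] := Nat.mod_modEq _ _
    have e2 : (c ρ : ℕ) + i + 1 ≡ (c ρ : ℕ) + (r + (m - 1 - (c ρ : ℕ))) + 1 [MOD m] :=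
      (e1.add_left _).add_right _
    have e3 : (c ρ : ℕ) + (r + (m - 1 - (c ρ : ℕ))) + 1 = r + m := by omega
    rw [e3] at e2
    exact e2.trans (by simp)
  have h4 := base_le m (c ρ) r (q ρ) (a ρ) M A T C hTne hAT hTC h3 (x ρ)
  have h5 : (patN (q ρ) (a ρ) M (A ∪ T ∪ C) (x ρ) : ℝ) ≤
      (m : ℝ) * (cnt m r (q ρ) (a ρ) M T (x ρ) : ℝ) := by
    exact_mod_cast h2.trans (Nat.mul_le_mul_left m h4)
  have h6 : Real.exp m ≤ x ρ := (le_max_right _ _).trans (h ρ).2.2.2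
  have hx0 : 0 < x ρ := (Real.exp_pos _).trans_le h6
  have h7 : (m : ℝ) ≤ Real.log (x ρ) := (Real.le_log_iff_exp_le hx0).2 h6
  have hm0 : (0 : ℝ) < m := by exact_mod_cast hm
  have hlog : 0 < Real.log (x ρ) := hm0.trans_le h7
  have h8 : x ρ / Real.log (x ρ) ^ B ≤
      Real.log (x ρ) * (cnt m r (q ρ) (a ρ) M T (x ρ) : ℝ) :=
    (h1.trans h5).trans (mul_le_mul_of_nonneg_right h7 (by positivity))
  rw [pow_succ, ← div_div, div_le_iff₀ hlog]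
  linarith

open Classical in
theorem denseI (k m B : ℕ) (hm : 1 ≤ m) (hB : Str (k + m - 1) B) (L R M : ℕ) (δ : ℝ)
    (hδ : 0 < δ) : ∃ c : ℝ, 0 < c ∧ ∃ N₀ : ℕ, ∀ N : ℕ, N₀ ≤ N → ∀ Q : ℕ, ∃ x₀ : ℝ,
    ∀ (q a : Fin R → ℕ) (x : Fin R → ℝ) (F : Finset ℕ),
    (∀ ρ, 1 ≤ q ρ ∧ q ρ ≤ Q ∧ x₀ ≤ x ρ) → F ⊆ range N → δ * N ≤ F.card →
    (∀ ρ, ∀ v ∈ F, (a ρ + v).Coprime (q ρ)) →
    c * (N : ℝ) ^ L ≤
      (((powersetCard L F).filter (fun W => GoodI k (B + 1) m R M q a x W)).card : ℝ) := by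
  obtain ⟨K, hK⟩ := index k m B hm hB L R M
  obtain ⟨c, hc, N₀, h⟩ := dense L (max K L) (le_max_right _ _) δ hδ
  choose! x0 hx0 using hK
  refine ⟨c, hc, N₀, fun N hN Q => ⟨∑ V ∈ (range N).powerset, |x0 V Q|,
    fun q a x F h1 hF hFc hcop => ?_⟩⟩
  refine h N hN F hF hFc (fun W => GoodI k (B + 1) m R M q a x W) fun S hS hSc => ?_
  refine hx0 S (by rw [hSc]; exact le_max_left _ _) Q q a x fun ρ => ?_
  obtain ⟨e1, e2, e3⟩ := h1 ρ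
  refine ⟨e1, e2, fun v hv => hcop ρ v (hS hv), le_trans ?_ e3⟩
  refine (le_abs_self _).trans ?_
  exact single_le_sum (f := fun V => |x0 V Q|) (fun V _ => abs_nonneg _)
    (mem_powerset.2 (hS.trans hF))

end Pool.Agent.N914.IX
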