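import Pool.Agent.N914.CP.Main
import Pool.Agent.N914.IX.Comb

set_option autoImplicit false
set_option maxHeartbeats 4000000

/-!
# The index of a prime in a pattern of consecutive primes (helper914)
-/

namespace Pool.Agent.N914.IX

open Finset Filter
open Pool.Agent.N914.CP (patN Str Good)

/-- the primes between `n + min T - M` and `n + max T + M` are exactly the `n + t`, `t ∈ T` -/
def Exact (M n : ℕ) (T : Finset ℕ) : Prop :=
  ∀ p : ℕ, (∃ t ∈ T, n + t ≤ p + M) → (∃ t ∈ T, p ≤ n + t + M) →
    (p.Prime ↔ ∃ t ∈ T, p = n + t)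

/-- the number of the `n ≤ x`, `n ≡ a (mod q)`, such that the primes between `n + min T - M` and
`n + max T + M` are exactly the `n + t`, `t ∈ T`, and the index of the first of them is
`≡ r (mod m)` -/
noncomputable def cnt (m r q a M : ℕ) (T : Finset ℕ) (x : ℝ) : ℕ :=
  {n : ℕ | (n : ℝ) ≤ x ∧ n ≡ a [MOD q] ∧ Exact M n T ∧
    ∃ t ∈ T, (∀ u ∈ T, t ≤ u) ∧ Nat.primeCounting (n + t) ≡ r [MOD m]}.ncard

/-- the number of the `n` counted by `patN` such that the number of primes below `n` is
`≡ c (mod m)` -/
noncomputable def base (m c q a M : ℕ) (T : Finset ℕ) (x : ℝ) : ℕ :=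
  {n : ℕ | ((n : ℝ) ≤ x ∧ n ≡ a [MOD q] ∧ ∀ p : ℕ, n ≤ p + M → p ≤ n + T.sup id + M →
    (p.Prime ↔ ∃ v ∈ T, p = n + v)) ∧ Nat.count Nat.Prime n % m = c}.ncard

theorem finite_le (x : ℝ) (S : Set ℕ) (h : ∀ n ∈ S, (n : ℝ) ≤ x) : S.Finite := by
  refine (Finset.finite_toSet (Finset.range (⌊x⌋₊ + 1))).subset fun n hn => ?_
  rw [mem_coe, mem_range]
  have := Nat.le_floor (h n hn)
  omega

theorem exists_color (m q a M : ℕ) (hm : 0 < m) (T : Finset ℕ) (x : ℝ) : ∃ c : Fin m,
    patN q a M T x ≤ m * base m c q a M T x := by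
  classical
  by_contra hcon
  push Not at hcon
  set S : Set ℕ := {n : ℕ | (n : ℝ) ≤ x ∧ n ≡ a [MOD q] ∧ ∀ p : ℕ, n ≤ p + M →
    p ≤ n + T.sup id + M → (p.Prime ↔ ∃ v ∈ T, p = n + v)} with hS
  have hSf : S.Finite := finite_le x S fun n hn => hn.1
  have h1 : patN q a M T x = hSf.toFinset.card := by
    rw [← Set.ncard_eq_toFinset_card S hSf]
    rfl
  have h2 : ∀ c : ℕ, base m c q a M T x =
      (hSf.toFinset.filter (fun n => Nat.count Nat.Prime n % m = c)).card := by
    intro c
    have h3 : {n : ℕ | n ∈ S ∧ Nat.count Nat.Prime n % m = c} =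
        ((hSf.toFinset.filter (fun n => Nat.count Nat.Prime n % m = c) : Finset ℕ) : Set ℕ) := by
      ext n
      simp
    have h4 : base m c q a M T x = {n : ℕ | n ∈ S ∧ Nat.count Nat.Prime n % m = c}.ncard := rfl
    rw [h4, h3, Set.ncard_coe_finset]
  have h3 : hSf.toFinset.card = ∑ c ∈ range m,
      (hSf.toFinset.filter (fun n => Nat.count Nat.Prime n % m = c)).card :=
    card_eq_sum_card_fiberwise fun n _ => by
      rw [mem_coe, mem_range]
      exact Nat.mod_lt _ hm
  have h4 : m * hSf.toFinset.card < m * hSf.toFinset.card := by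
    calc m * hSf.toFinset.card = ∑ c ∈ range m, m * base m c q a M T x := by
          conv_lhs => rw [h3]
          rw [mul_sum]
          exact sum_congr rfl fun c _ => by rw [h2 c]
      _ < ∑ _c ∈ range m, patN q a M T x := by
          refine sum_lt_sum_of_nonempty ⟨0, mem_range.2 hm⟩ fun c hc => ?_
          exact hcon ⟨c, mem_range.1 hc⟩
      _ = m * hSf.toFinset.card := by
          rw [sum_const, card_range, smul_eq_mul, h1]
  exact lt_irrefl _ h4

/-- the passage from a pattern to the pattern of a part in the middle -/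
theorem base_le (m c r q a M : ℕ) (A T C : Finset ℕ) (hT : T.Nonempty)
    (hAT : ∀ u ∈ A, ∀ t ∈ T, u + M < t) (hTC : ∀ t ∈ T, ∀ v ∈ C, t + M < v)
    (hr : c + A.card + 1 ≡ r [MOD m]) (x : ℝ) :
    base m c q a M (A ∪ T ∪ C) x ≤ cnt m r q a M T x := by
  classical
  refine Set.ncard_le_ncard ?_ (finite_le x _ fun n hn => hn.1)
  rintro n ⟨⟨hx, ha, H⟩, hc⟩
  refine ⟨hx, ha, ?_, ?_⟩
  · rintro p ⟨t, ht, h1⟩ ⟨t', ht', h2⟩
    have h3 : t' ≤ (A ∪ T ∪ C).sup id := le_sup (f := id)
      (mem_union_left _ (mem_union_right _ ht'))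
    rw [H p (by omega) (by omega)]
    constructor
    · rintro ⟨v, hv, hpv⟩
      rw [mem_union, mem_union] at hv
      rcases hv with (hv | hv) | hv
      · have := hAT v hv t ht
        omega
      · exact ⟨v, hv, hpv⟩
      · have := hTC t' ht' v hv
        omega
    · rintro ⟨v, hv, hpv⟩
      exact ⟨v, mem_union_left _ (mem_union_right _ hv), hpv⟩
  · refine ⟨T.min' hT, min'_mem T hT, fun u hu => min'_le T u hu, ?_⟩
    set t := T.min' hT with ht
    have htT : t ∈ T := min'_mem T hT
    have h3 : t ≤ (A ∪ T ∪ C).sup id := le_sup (f := id)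
      (mem_union_left _ (mem_union_right _ htT))
    have h1 : Nat.primeCounting (n + t) = Nat.count Nat.Prime n + (A.card + 1) := by
      unfold Nat.primeCounting Nat.primeCounting'
      rw [add_assoc, Nat.count_add]
      congr 1
      rw [Nat.count_eq_card_filter_range]
      have h4 : (range (t + 1)).filter (fun k => (n + k).Prime) = insert t A := by
        ext k
        rw [mem_filter, mem_range, mem_insert]
        constructor
        · rintro ⟨hk, hp⟩
          obtain ⟨v, hv, hkv⟩ := (H (n + k) (by omega) (by omega)).1 hp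
          have hkv' : k = v := by omega
          subst hkv'
          rw [mem_union, mem_union] at hv
          rcases hv with (hv | hv) | hv
          · exact Or.inr hv
          · have := min'_le T k hv
            exact Or.inl (by omega)
          · have := hTC t htT k hv
            omega
        · rintro (hk | hk)
          · exact ⟨by omega, (H (n + k) (by omega) (by omega)).2
              ⟨t, mem_union_left _ (mem_union_right _ htT), by rw [hk]⟩⟩
          · have h5 := hAT k hk t htT
            exact ⟨by omega, (H (n + k) (by omega) (by omega)).2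
              ⟨k, mem_union_left _ (mem_union_left _ hk), rfl⟩⟩
      rw [h4, card_insert_of_notMem]
      intro hcon
      have := hAT t hcon t htT
      omega
    rw [h1]
    have h5 : Nat.count Nat.Prime n ≡ c [MOD m] := by
      have h6 : c % m = c := by rw [← hc]; exact Nat.mod_mod _ _
      show Nat.count Nat.Prime n % m = c % m
      rw [hc, h6]
    refine ((h5.add_right (A.card + 1)).trans ?_)
    rw [← add_assoc]
    exact hr

end Pool.Agent.N914.IX
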